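import Mathlib
import Pool.Agent.Helper9.Th.HH

set_option autoImplicit false

namespace Pool.Agent.Th

open Subgroup

/-- odd version of the Hall-Higman lemma -/
theorem hh_odd (G : Type) [Group G] [Finite G] (hsep : ∃ n, res n (⊤ : Subgroup G) = ⊥)
    (V C : Subgroup G) (hCn : C.Normal) (hC : ∀ c ∈ C, ∀ v ∈ V, c * v = v * c)
    (hV : ∀ M : Subgroup G, M.Normal → ¬ 2 ∣ Nat.card M → M ≤ V)
    (hO : ∀ M : Subgroup G, M.Normal → IsPGroup 2 M → M ≤ C → M = ⊥) : ¬ 2 ∣ Nat.card C := by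
  intro hcon
  have hEv : ∀ K : Subgroup G, 2 ∣ Nat.card K → 2 ∣ Nat.card (Ev K) := by
    intro K h2
    by_contra h3
    rw [← Ev_eq_bot_iff, Ev_idem, Ev_eq_bot_iff] at h3
    exact h3 h2
  have hOd : ∀ K : Subgroup G, K.Normal → K ≤ C → 2 ∣ Nat.card K → 2 ∣ Nat.card (Od K) := by
    intro K hK hKC h2
    by_contra h3
    have h4 := hV _ (Od_normal K) h3
    set Z := (Od K).subgroupOf K with hZ
    have hZc : ∀ z ∈ Z, ∀ x : K, z * x = x * z := by
      intro z hz x
      exact Subtype.ext (hC _ (hKC x.2) _ (h4 (mem_subgroupOf.1 hz))).symm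
    have hcardZ : Nat.card Z = Nat.card (Od K) :=
      Nat.card_congr (subgroupOfEquivOfLe (Od_le K)).toEquiv
    obtain ⟨k, hk⟩ := isP2_index_Od K
    have hcop : (Nat.card Z).Coprime Z.index := by
      rw [hcardZ, hZ, hk]
      exact Nat.Coprime.pow_right k ((Nat.Prime.coprime_iff_not_dvd Nat.prime_two).2 h3).symm
    obtain ⟨U, hU1, hU2⟩ := central_compl Z hZc hcop
    have hEvU : Ev K ≤ U.map K.subtype := by
      rw [Ev_le_iff]
      rintro x hx ⟨e, he⟩
      refine ⟨⟨x, hx⟩, hU2 _ (2 ^ e) (Subtype.ext (by simpa using he)) ?_, rfl⟩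
      rw [hcardZ]
      exact Nat.Coprime.pow_left e ((Nat.Prime.coprime_iff_not_dvd Nat.prime_two).2 h3)
    have h5 : IsPGroup 2 (Ev K) :=
      ((IsPGroup.of_card (hU1.trans hk)).map K.subtype).to_le hEvU
    have h6 := hO _ (Ev_normal K) h5 ((Ev_le K).trans hKC)
    exact (Ev_eq_bot_iff.1 h6) h2
  have key : ∀ n, 2 ∣ Nat.card (res n C) := by
    intro n
    induction n with
    | zero => exact hEv C hcon
    | succ n ih => exact hEv _ (hOd _ (res_normal n C) (res_le n C) ih)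
  obtain ⟨n, hn⟩ := hsep
  have h1 := key n
  have h2 : res n C = ⊥ := le_bot_iff.1 ((res_mono n le_top).trans hn.le)
  rw [h2, card_bot] at h1
  omega

/-- invariant Sylow subgroups of a normal subgroup of odd order -/
theorem exists_inv_sylow (G : Type) [Group G] [Finite G] (N P : Subgroup G) (hNn : N.Normal)
    (hN : ¬ 2 ∣ Nat.card N) (hP : IsPGroup 2 P) (r : ℕ) (hr : r.Prime) :
    ∃ R : Subgroup G, R ≤ N ∧ Nat.card R = r ^ (Nat.card N).factorization r ∧
      P ≤ normalizer (R : Set G) ∧ normalizer (R : Set G) ⊔ N = ⊤ := by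
  have : Fact r.Prime := ⟨hr⟩
  let act : MulDistribMulAction P N :=
    MulDistribMulAction.compHom N ((MulAut.conjNormal : G →* MulAut N).comp P.subtype)
  have hact : ∀ (p : P) (x : N), ((p • x : N) : G) = p * x * (p : G)⁻¹ := by
    intro p x
    exact MulAut.conjNormal_apply (p : G) x
  have hcard : ¬ 2 ∣ Nat.card (Sylow r N) := by
    intro h
    have Q : Sylow r N := default
    rw [Q.card_eq_index_normalizer] at h
    exact hN (h.trans (index_dvd_card _))
  obtain ⟨Q, hQ⟩ := hP.nonempty_fixed_point_of_prime_not_dvd_card (Sylow r N) hcard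
  have hQ' : ∀ p : P, p • Q = Q := hQ
  refine ⟨(Q : Subgroup N).map N.subtype, map_subtype_le _, ?_, ?_, ?_⟩
  · rw [card_map_of_injective N.subtype_injective]
    exact Q.card_eq_multiplicity
  · have key : ∀ p ∈ P, ∀ x ∈ (Q : Subgroup N).map N.subtype,
        p * x * p⁻¹ ∈ (Q : Subgroup N).map N.subtype := by
      rintro p hp x ⟨y, hy, rfl⟩
      refine ⟨(⟨p, hp⟩ : P) • y, ?_, hact ⟨p, hp⟩ y⟩
      have h1 := hQ' ⟨p, hp⟩
      have h2 : ((⟨p, hp⟩ : P) • Q : Sylow r N) = Q := h1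
      have h3 : (⟨p, hp⟩ : P) • y ∈ ((⟨p, hp⟩ : P) • Q : Sylow r N) := by
        exact Subgroup.smul_mem_pointwise_smul _ _ _ hy
      rw [h2] at h3
      exact h3
    intro p hp
    rw [mem_normalizer_iff]
    intro x
    constructor
    · intro hx; exact key p hp x hx
    · intro hx
      have := key p⁻¹ (P.inv_mem hp) _ hx
      simpa [mul_assoc] using this
  · exact Q.normalizer_sup_eq_top


/-- a finite group with an invariant subgroup of every Sylow order is nilpotent -/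
theorem isNilpotent_of_sylow_normal (K : Type) [Group K] [Finite K]
    (h : ∀ r : ℕ, r.Prime → ∃ R : Subgroup K, R.Normal ∧
      Nat.card R = r ^ (Nat.card K).factorization r) : Group.IsNilpotent K := by
  apply (Group.isNilpotent_of_finite_tfae (G := K)).out 3 0 |>.1
  intro r hr P
  obtain ⟨R, hRn, hR⟩ := h r hr.out
  obtain ⟨g, hg⟩ := MulAction.exists_smul_eq K (Sylow.ofCard R hR) P
  have h1 : (Sylow.ofCard R hR).1.Normal := hRn
  have h2 : g • Sylow.ofCard R hR = Sylow.ofCard R hR := by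
    exact Sylow.smul_eq_of_normal (h := h1)
  rw [h2] at hg
  rw [← hg]
  exact h1

theorem exists_supp (G : Type) [Group G] [Finite G] (N P H : Subgroup G) [hNn : N.Normal]
    (hN : ¬ 2 ∣ Nat.card N) (hP : IsPGroup 2 P) (hNH : N ≤ H) (hPH : P ≤ H)
    (hsol : Group.IsSolvable (H.map (QuotientGroup.mk' N))) (q : ℕ) (hq : q.Prime) :
    ∃ Q S : Subgroup G, Q ≤ N ∧ Nat.card Q = q ^ (Nat.card N).factorization q ∧ Q ≤ S ∧ P ≤ S ∧
      S ≤ H ∧ S ⊔ N = H ∧ (∀ s ∈ S, ∀ x ∈ Q, s * x * s⁻¹ ∈ Q) ∧ Group.IsSolvable S := by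
  obtain ⟨Q, hQN, hQc, hPQ, hQsup⟩ := exists_inv_sylow G N P hNn hN hP q hq
  have : Fact q.Prime := ⟨hq⟩
  have hQq : IsPGroup q Q := IsPGroup.of_card hQc
  -- candidates
  obtain ⟨S, hS, hmin⟩ := (Set.toFinite {S : Subgroup G | Q ≤ S ∧ P ≤ S ∧ S ≤ H ∧
    S ≤ normalizer (Q : Set G) ∧ H ≤ S ⊔ N}).exists_minimal
    ⟨normalizer (Q : Set G) ⊓ H, le_inf le_normalizer (hQN.trans hNH), le_inf hPQ hPH,
      inf_le_right, inf_le_left, by
        intro x hx
        have h1 : x ∈ normalizer (Q : Set G) ⊔ N := by rw [hQsup]; exact mem_top x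
        obtain ⟨y, hy, z, hz, rfl⟩ := mem_sup_of_normal_right.1 h1
        refine mul_mem_sup (mem_inf.2 ⟨hy, ?_⟩) hz
        have : y = y * z * z⁻¹ := by group
        rw [this]
        exact mul_mem hx (inv_mem (hNH hz))⟩
  obtain ⟨hQS, hPS, hSH, hSQ, hHS⟩ := hS
  have hSN : S ⊔ N = H := le_antisymm (sup_le hSH hNH) hHS
  refine ⟨Q, S, hQN, hQc, hQS, hPS, hSH, hSN, ?_, ?_⟩
  · intro s hs x hx
    exact (mem_normalizer_iff.1 (hSQ hs) x).1 hx
  -- the group `S ⧸ Q`
  set Q' := Q.subgroupOf S with hQ'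
  have hQ'n : Q'.Normal := by
    constructor
    intro x hx g
    rw [hQ', mem_subgroupOf] at hx ⊢
    exact (mem_normalizer_iff.1 (hSQ g.2) _).1 hx
  set N' := N.subgroupOf S with hN'
  have hN'n : N'.Normal := inferInstance
  set ρ : S →* S ⧸ Q' := QuotientGroup.mk' Q' with hρ
  have hρs : Function.Surjective ρ := QuotientGroup.mk'_surjective Q'
  set N₁ := N'.map ρ with hN₁
  have hN₁n : N₁.Normal := Normal.map hN'n ρ hρs
  have hN'2 : ¬ 2 ∣ Nat.card N' := by
    intro h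
    apply hN
    have h1 : Nat.card N' = Nat.card (N'.map S.subtype) :=
      (card_map_of_injective S.subtype_injective).symm
    rw [h1] at h
    refine h.trans (card_dvd_of_le ?_)
    rw [hN', subgroupOf_map_subtype]
    exact inf_le_left
  have hN₁2 : ¬ 2 ∣ Nat.card N₁ := fun h => hN'2 (h.trans (card_map_dvd N' ρ))
  have hP₁ : IsPGroup 2 ((P.subgroupOf S).map ρ) := (hP.comap_subtype).map ρ
  have key : ∀ r : ℕ, r.Prime → ∃ R : Subgroup (S ⧸ Q'), R ≤ N₁ ∧ R.Normal ∧
      Nat.card R = r ^ (Nat.card N₁).factorization r := by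
    intro r hr
    obtain ⟨R, hRN, hRc, hPR, hRsup⟩ := exists_inv_sylow (S ⧸ Q') N₁ _ hN₁n hN₁2 hP₁ r hr
    refine ⟨R, hRN, ?_, hRc⟩
    -- the preimage of the normalizer
    set S₁ := ((normalizer (R : Set (S ⧸ Q'))).comap ρ).map S.subtype with hS₁
    have hS₁S : S₁ ≤ S := map_subtype_le _
    have hcand : S₁ ∈ {S : Subgroup G | Q ≤ S ∧ P ≤ S ∧ S ≤ H ∧
        S ≤ normalizer (Q : Set G) ∧ H ≤ S ⊔ N} := by
      refine ⟨?_, ?_, hS₁S.trans hSH, hS₁S.trans hSQ, ?_⟩
      · intro x hx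
        refine ⟨⟨x, hQS hx⟩, ?_, rfl⟩
        show ρ ⟨x, hQS hx⟩ ∈ normalizer (R : Set (S ⧸ Q'))
        have : ρ ⟨x, hQS hx⟩ = 1 := by
          rw [← MonoidHom.mem_ker, hρ, QuotientGroup.ker_mk', hQ', mem_subgroupOf]
          exact hx
        rw [this]; exact one_mem _
      · intro x hx
        refine ⟨⟨x, hPS hx⟩, ?_, rfl⟩
        exact hPR (mem_map_of_mem ρ (mem_subgroupOf.2 hx))
      · have h1 : S ≤ S₁ ⊔ N := by
          intro x hx
          have h2 : ρ ⟨x, hx⟩ ∈ normalizer (R : Set (S ⧸ Q')) ⊔ N₁ := by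
            rw [hRsup]; exact mem_top _
          obtain ⟨y, hy, z, hz, hyz⟩ := mem_sup_of_normal_right.1 h2
          obtain ⟨z', hz', rfl⟩ := hz
          have h3 : ρ (⟨x, hx⟩ * z'⁻¹) = y := by
            rw [map_mul, map_inv, ← hyz, mul_inv_cancel_right]
          have h4 : x * (z' : G)⁻¹ ∈ S₁ := by
            refine ⟨⟨x, hx⟩ * z'⁻¹, ?_, rfl⟩
            show ρ (⟨x, hx⟩ * z'⁻¹) ∈ normalizer (R : Set (S ⧸ Q'))
            rw [h3]; exact hy
          have h5 : x = x * (z' : G)⁻¹ * z' := by group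
          rw [h5]
          exact mul_mem_sup h4 (mem_subgroupOf.1 hz')
        exact hHS.trans (sup_le h1 le_sup_right)
    have h1 : S ≤ S₁ := hmin hcand hS₁S
    rw [← normalizer_eq_top_iff, eq_top_iff]
    intro y _
    obtain ⟨x, rfl⟩ := hρs y
    obtain ⟨x', hx', hxx⟩ := h1 x.2
    have : x' = x := Subtype.ext hxx
    rw [← this]; exact hx'
  have hnil : Group.IsNilpotent N₁ := by
    apply isNilpotent_of_sylow_normal
    intro r hr
    obtain ⟨R, hRN, hRn, hRc⟩ := key r hr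
    refine ⟨R.subgroupOf N₁, inferInstance, ?_⟩
    rw [← hRc]
    exact Nat.card_congr (subgroupOfEquivOfLe hRN).toEquiv
  have hN₁sol : Group.IsSolvable N₁ := inferInstance
  have hQsol : Group.IsSolvable Q := by
    have : Group.IsNilpotent Q := hQq.isNilpotent
    infer_instance
  have hQ'sol : Group.IsSolvable Q' :=
    Group.isSolvable_of_isSolvable_injective (f := (subgroupOfEquivOfLe hQS).toMonoidHom)
      (subgroupOfEquivOfLe hQS).injective
  have hN'sol : Group.IsSolvable N' := by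
    refine Group.isSolvable_of_ker_le_range
      (inclusion (inf_le_right : Q' ⊓ N' ≤ N')) (ρ.subgroupMap N') ?_ (hG' := ?_) (hG'' := hN₁sol)
    · intro x hx
      have hx' : ρ (x : S) = 1 := congrArg Subtype.val (MonoidHom.mem_ker.1 hx)
      have hxQ : (x : S) ∈ Q' := by
        rw [← MonoidHom.mem_ker, hρ, QuotientGroup.ker_mk'] at hx'
        exact hx'
      exact ⟨⟨x, hxQ, x.2⟩, rfl⟩
    · exact Group.isSolvable_of_isSolvable_injective
        (inclusion_injective (inf_le_left : Q' ⊓ N' ≤ Q'))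
  have hSmap : S.map (QuotientGroup.mk' N) = H.map (QuotientGroup.mk' N) := by
    rw [← hSN, Subgroup.map_sup]
    have : N.map (QuotientGroup.mk' N) = ⊥ := by
      rw [Subgroup.map_eq_bot_iff, QuotientGroup.ker_mk']
    rw [this, sup_bot_eq]
  have hSsol : Group.IsSolvable (S.map (QuotientGroup.mk' N)) := by rw [hSmap]; exact hsol
  refine Group.isSolvable_of_ker_le_range N'.subtype ((QuotientGroup.mk' N).subgroupMap S) ?_
  intro x hx
  have hx' : (QuotientGroup.mk' N) (x : G) = 1 := congrArg Subtype.val (MonoidHom.mem_ker.1 hx)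
  have hxN : (x : G) ∈ N := by
    rw [← MonoidHom.mem_ker, QuotientGroup.ker_mk'] at hx'
    exact hx'
  exact ⟨⟨x, mem_subgroupOf.2 hxN⟩, rfl⟩

end Pool.Agent.Th
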