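import Mathlib
import Pool.Agent.Helper28.Th.Supp

set_option autoImplicit false

namespace Pool.Agent.Th

open Subgroup

/-- interface of R1 (odd version) -/
def HHOdd : Prop := ∀ (G : Type) [Group G] [Finite G], (∃ n, res n (⊤ : Subgroup G) = ⊥) →
  ∀ (V C : Subgroup G), C.Normal → (∀ c ∈ C, ∀ v ∈ V, c * v = v * c) →
    (∀ M : Subgroup G, M.Normal → ¬ 2 ∣ Nat.card M → M ≤ V) →
    (∀ M : Subgroup G, M.Normal → IsPGroup 2 M → M ≤ C → M = ⊥) → ¬ 2 ∣ Nat.card C

/-- interface of R2 -/
def Supp : Prop := ∀ (G : Type) [Group G] [Finite G] (N P H : Subgroup G) [N.Normal],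
  ¬ 2 ∣ Nat.card N → IsPGroup 2 P → N ≤ H → P ≤ H →
    Group.IsSolvable (H.map (QuotientGroup.mk' N)) → ∀ q : ℕ, q.Prime →
    ∃ Q S : Subgroup G, Q ≤ N ∧ Nat.card Q = q ^ (Nat.card N).factorization q ∧ Q ≤ S ∧ P ≤ S ∧
      S ≤ H ∧ S ⊔ N = H ∧ (∀ s ∈ S, ∀ x ∈ Q, s * x * s⁻¹ ∈ Q) ∧ Group.IsSolvable S

section tools

variable {G : Type} [Group G]

theorem isPGroup_of_map_mk [Finite G] (D : Subgroup G) [D.Normal] (hD : IsPGroup 2 D)
    (X : Subgroup G) (h : IsPGroup 2 (X.map (QuotientGroup.mk' D))) : IsPGroup 2 X := by
  have hk : IsPGroup 2 (QuotientGroup.mk' D).ker := by rw [QuotientGroup.ker_mk']; exact hD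
  exact (h.comap_of_ker_isPGroup (QuotientGroup.mk' D) hk).to_le (le_comap_map _ _)

/-- solvable image and solvable kernel part -/
theorem isSolvable_of_map (D H : Subgroup G) [D.Normal] (hD : Group.IsSolvable D)
    (hH : Group.IsSolvable (H.map (QuotientGroup.mk' D))) : Group.IsSolvable H := by
  let f : H →* (G ⧸ D) := (QuotientGroup.mk' D).comp H.subtype
  let g : H →* H.map (QuotientGroup.mk' D) := ((QuotientGroup.mk' D).subgroupMap H)
  have : Group.IsSolvable (D ⊓ H : Subgroup G) :=
    Group.isSolvable_of_isSolvable_injective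
      (inclusion_injective (inf_le_left : D ⊓ H ≤ D))
  refine Group.isSolvable_of_ker_le_range (inclusion (inf_le_right : D ⊓ H ≤ H)) g ?_
  intro x hx
  have hx' : (QuotientGroup.mk' D) (x : G) = 1 := congrArg Subtype.val (MonoidHom.mem_ker.1 hx)
  have hxD : (x : G) ∈ D := by
    rw [← QuotientGroup.ker_mk' D]; exact hx'
  exact ⟨⟨x, hxD, x.2⟩, rfl⟩


theorem normal_le_sylow [Finite G] (P : Sylow 2 G) {M : Subgroup G} (hn : M.Normal)
    (hM : IsPGroup 2 M) : M ≤ P := by
  have h2 := P.3 (P.2.to_sup_of_normal_right hM) le_sup_left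
  rw [← h2]; exact le_sup_right

theorem card_quot_lt [Finite G] (D : Subgroup G) [D.Normal] (h : D ≠ ⊥) :
    Nat.card (G ⧸ D) < Nat.card G := by
  have h1 := D.card_eq_card_quotient_mul_card_subgroup
  have h2 : 1 < Nat.card D := (one_lt_card_iff_ne_bot D).2 h
  have h3 : 0 < Nat.card (G ⧸ D) := Nat.card_pos
  rw [h1]
  exact lt_mul_of_one_lt_right h3 h2

theorem sep_quot [Finite G] (D : Subgroup G) [D.Normal]
    (h : ∃ n, res n (⊤ : Subgroup G) = ⊥) : ∃ n, res n (⊤ : Subgroup (G ⧸ D)) = ⊥ := by
  obtain ⟨m, hm⟩ := h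
  refine ⟨m, ?_⟩
  rw [← res_top_map (QuotientGroup.mk' D) (QuotientGroup.mk'_surjective D), hm, Subgroup.map_bot]

/-- `N` is covered by its Sylow-size subgroups. -/
theorem le_of_forall_prime [Finite G] (N K : Subgroup G)
    (h : ∀ q : ℕ, q.Prime → q ∣ Nat.card N →
      ∃ Q : Subgroup G, Q ≤ N ∧ Q ≤ K ∧ Nat.card Q = q ^ (Nat.card N).factorization q) :
    N ≤ K := by
  have h1 : Nat.card N ∣ Nat.card (N ⊓ K : Subgroup G) := by
    rw [← Nat.factorization_le_iff_dvd Nat.card_pos.ne' Nat.card_pos.ne']
    intro q
    by_cases hq : q.Prime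
    · by_cases hd : q ∣ Nat.card N
      · obtain ⟨Q, hQN, hQK, hQ⟩ := h q hq hd
        have h2 : Nat.card Q ∣ Nat.card (N ⊓ K : Subgroup G) := card_dvd_of_le (le_inf hQN hQK)
        rw [hQ] at h2
        exact (hq.pow_dvd_iff_le_factorization Nat.card_pos.ne').1 h2
      · rw [Nat.factorization_eq_zero_of_not_dvd hd]; exact Nat.zero_le _
    · rw [Nat.factorization_eq_zero_of_not_prime _ hq]; exact Nat.zero_le _
  have h2 : Nat.card (N ⊓ K : Subgroup G) ≤ Nat.card N := card_le_of_le inf_le_left
  have h3 : Nat.card (N ⊓ K : Subgroup G) = Nat.card N :=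
    le_antisymm h2 (Nat.le_of_dvd Nat.card_pos h1)
  have h4 : N ⊓ K = N := by
    apply eq_of_le_of_card_ge inf_le_left h3.ge
  exact inf_eq_left.1 h4

end tools

/-- the main claim -/
theorem red_claim (hho : HHOdd) (supp : Supp) (n : ℕ) : ∀ (G : Type) [Group G] [Finite G],
    Nat.card G ≤ n → (∃ n, res n (⊤ : Subgroup G) = ⊥) → ∀ P : Sylow 2 G,
    ∃ H : Subgroup G, (P : Subgroup G) ≤ H ∧ Group.IsSolvable H ∧
      ∀ k, IsPGroup 2 (res k H) → IsPGroup 2 (res k (⊤ : Subgroup G)) := by
  induction n with
  | zero =>
    intro G _ _ h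
    have := Nat.card_pos (α := G)
    omega
  | succ n ih =>
    intro G _ _ hcard hsep P
    by_cases hD : ∃ D : Subgroup G, D.Normal ∧ IsPGroup 2 D ∧ D ≠ ⊥
    · -- a nontrivial normal 2-subgroup
      obtain ⟨D, hDn, hD2, hDb⟩ := hD
      have hlt := card_quot_lt D hDb
      set π := QuotientGroup.mk' D with hπ
      have hπs : Function.Surjective π := QuotientGroup.mk'_surjective D
      obtain ⟨H', hPH, hH's, hk⟩ := ih (G ⧸ D) (by omega) (sep_quot D hsep)
        (P.mapSurjective hπs)
      have hmap : (H'.comap π).map π = H' := map_comap_eq_self_of_surjective hπs H'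
      refine ⟨H'.comap π, ?_, ?_, ?_⟩
      · rw [← map_le_iff_le_comap]; exact hPH
      · apply isSolvable_of_map D
        · have : Group.IsNilpotent D := hD2.isNilpotent
          infer_instance
        · rw [hmap]; exact hH's
      · intro k h1
        have h2 : IsPGroup 2 (res k H') := by
          rw [← hmap, res_map]; exact h1.map π
        have h3 := hk k h2
        rw [← res_top_map π hπs] at h3
        exact isPGroup_of_map_mk D hD2 _ h3
    · have hD' : ∀ M : Subgroup G, M.Normal → IsPGroup 2 M → M = ⊥ := by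
        intro M h1 h2
        by_contra h3
        exact hD ⟨M, h1, h2, h3⟩
      obtain ⟨N, hNn, hN2, hNmax⟩ := exists_Oodd (G := G)
      by_cases heven : 2 ∣ Nat.card (⊤ : Subgroup G)
      swap
      · refine ⟨P, le_rfl, ?_, ?_⟩
        · have : Group.IsNilpotent (P : Subgroup G) := P.2.isNilpotent
          infer_instance
        · intro k _
          rw [res_eq_bot_of_odd heven]; exact IsPGroup.of_bot
      have hNb : N ≠ ⊥ := by
        rintro rfl
        refine hho G hsep ⊥ ⊤ inferInstance ?_ hNmax (fun M h1 h2 _ => hD' M h1 h2) heven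
        intro c _ v hv
        rw [mem_bot.1 hv]; simp
      have hlt := card_quot_lt N hNb
      set π := QuotientGroup.mk' N with hπ
      have hπs : Function.Surjective π := QuotientGroup.mk'_surjective N
      have hkerπ : π.ker = N := QuotientGroup.ker_mk' N
      have hsep' := sep_quot N hsep
      obtain ⟨H', hPH, hH's, hk⟩ := ih (G ⧸ N) (by omega) hsep' (P.mapSurjective hπs)
      have hmap : (H'.comap π).map π = H' := map_comap_eq_self_of_surjective hπs H'
      have hNH : N ≤ H'.comap π := by
        intro x hx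
        rw [mem_comap]
        have : π x = 1 := by rw [← MonoidHom.mem_ker, hkerπ]; exact hx
        rw [this]; exact H'.one_mem
      have hPH' : (P : Subgroup G) ≤ H'.comap π := by
        rw [← map_le_iff_le_comap]; exact hPH
      -- step (ii)
      have hodd' : ∀ M : Subgroup (G ⧸ N), M.Normal → ¬ 2 ∣ Nat.card M → M = ⊥ := by
        intro M hM h2
        have h3 : (M.comap π).Normal := inferInstance
        have h4 : ¬ 2 ∣ Nat.card (M.comap π) := by
          rw [← Ev_eq_bot_iff]
          have h5 : Ev (M.comap π) ≤ N := by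
            have h5' : Ev (M.comap π) ≤ π.ker := by
              rw [Ev_le_ker_iff, map_comap_eq_self_of_surjective hπs, Ev_eq_bot_iff]
              exact h2
            exact h5'.trans hkerπ.le
          have h6 : Ev (Ev (M.comap π)) ≤ Ev N := Ev_mono h5
          rw [Ev_idem, Ev_eq_bot_iff.2 hN2] at h6
          exact le_bot_iff.1 h6
        have h5 := (hNmax _ h3 h4).trans hkerπ.ge
        rw [← map_comap_eq_self_of_surjective hπs M, Subgroup.map_eq_bot_iff]
        exact h5
      have step2 : ∀ k, res k H' = ⊥ → res k (⊤ : Subgroup (G ⧸ N)) = ⊥ := by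
        intro k hk0
        cases k with
        | zero =>
          have h1 : IsPGroup 2 (res 0 (⊤ : Subgroup (G ⧸ N))) :=
            hk 0 (by rw [hk0]; exact IsPGroup.of_bot)
          have h2 : res 0 (⊤ : Subgroup (G ⧸ N)) ≤ H' := by
            refine le_trans ?_ hPH
            exact normal_le_sylow (P.mapSurjective hπs) inferInstance h1
          have h3 : Ev (res 0 (⊤ : Subgroup (G ⧸ N))) ≤ Ev H' := Ev_mono h2
          rw [Ev_res] at h3
          exact le_bot_iff.1 (h3.trans hk0.le)
        | succ k =>
          obtain ⟨T, hTn, hT2, hTmax⟩ := exists_O2 (G := G ⧸ N)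
          have hTH : T ≤ H' := (normal_le_sylow (P.mapSurjective hπs) hTn hT2).trans hPH
          have hX2 : ¬ 2 ∣ Nat.card (Od (res k H')) := by
            rw [← Ev_eq_bot_iff]; exact hk0
          have hcomm : Od (res k H') ≤ centralizer (T : Set (G ⧸ N)) := by
            intro x hx
            rw [mem_centralizer_iff]
            intro t ht
            have h1 : t * x * t⁻¹ ∈ Od (res k H') := by
              have h0 : cj t (Od (res k H')) = Od (res k H') := by
                rw [cj_Od, cj_res, cj_self_of_mem (hTH ht)]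
              have := conj_mem_cj (g := t) hx
              rwa [h0] at this
            have h2 : t * x * t⁻¹ * x⁻¹ ∈ Od (res k H') := mul_mem h1 (inv_mem hx)
            have h3 : t * x * t⁻¹ * x⁻¹ ∈ T := by
              have : t * (x * t⁻¹ * x⁻¹) ∈ T := mul_mem ht (hTn.conj_mem _ (inv_mem ht) x)
              simpa [mul_assoc] using this
            have h4 := eq_one_of_two_odd (isTwo_of_isPGroup hT2 h3) (odd_of_card hX2 h2)
            have h5 : t * x = x * t := by
              have := mul_inv_eq_one.1 h4
              rw [mul_inv_eq_iff_eq_mul] at this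
              exact this
            exact h5
          have h1 : Od (res k H') ≤ T :=
            hcomm.trans (hall_higman hsep' hodd' hT2 hTmax)
          have h2 : Od (res k H') = ⊥ := by
            have h3 : IsPGroup 2 (Od (res k H')) := hT2.to_le h1
            have h4 := Ev_eq_of_isPGroup h3
            rw [← h4]; exact hk0
          have h3 := hk k (Od_eq_bot_iff.1 h2)
          show Ev (Od (res k _)) = ⊥
          rw [Od_eq_bot_iff.2 h3]; exact Ev_bot
      have step3 : ∀ k, res k H' = ⊥ → res k (⊤ : Subgroup G) = ⊥ := by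
        intro k hk0
        have h1 := step2 k hk0
        have h2 : res k (⊤ : Subgroup G) ≤ N := by
          rw [res_le_iff_map_mk, map_top_of_surjective _ hπs]
          exact h1
        have h3 := Ev_mono h2
        rw [Ev_res, Ev_eq_bot_iff.2 hN2] at h3
        exact le_bot_iff.1 h3
      -- supplements
      have hsuppq : ∀ q : ℕ, q.Prime → ∃ Q S : Subgroup G, Q ≤ N ∧
          Nat.card Q = q ^ (Nat.card N).factorization q ∧ Q ≤ S ∧ (P : Subgroup G) ≤ S ∧
          S ≤ H'.comap π ∧ S ⊔ N = H'.comap π ∧ (∀ s ∈ S, ∀ x ∈ Q, s * x * s⁻¹ ∈ Q) ∧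
          Group.IsSolvable S := by
        intro q hq
        exact supp G N P (H'.comap π) hN2 P.2 hNH hPH' (by rw [← hπ, hmap]; exact hH's) q hq
      choose! Q S hQN hQc hQS hPS hSH hSN hSQ hSs using hsuppq
      have hex : ∀ q : ℕ, ∃ k, IsPGroup 2 (res k (S q)) := by
        intro q
        obtain ⟨m, hm⟩ := hsep
        refine ⟨m, ?_⟩
        have : res m (S q) = ⊥ := le_bot_iff.1 ((res_mono m le_top).trans hm.le)
        rw [this]; exact IsPGroup.of_bot
      classical
      obtain ⟨q, hqm, hqmax⟩ := Finset.exists_max_image (Nat.card N).primeFactors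
        (fun q => Nat.find (hex q)) (by
          rw [Nat.nonempty_primeFactors]
          exact (one_lt_card_iff_ne_bot N).2 hNb)
      have hqp : q.Prime := Nat.prime_of_mem_primeFactors hqm
      refine ⟨S q, hPS q hqp, hSs q hqp, ?_⟩
      intro k hkq
      have hall : ∀ r ∈ (Nat.card N).primeFactors, IsPGroup 2 (res k (S r)) := by
        intro r hr
        have h1 : Nat.find (hex r) ≤ k := (hqmax r hr).trans (Nat.find_min' (hex q) hkq)
        exact (Nat.find_spec (hex r)).to_le (res_antitone _ h1)
      have hkey : res k H' = ⊥ := by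
        rw [eq_bot_iff]
        intro y hy
        have hmapS : ∀ r ∈ (Nat.card N).primeFactors, (S r).map π = H' := by
          intro r hr
          have h1 := hSN r (Nat.prime_of_mem_primeFactors hr)
          have h2 : (S r ⊔ N).map π = H' := by rw [h1, hmap]
          rw [Subgroup.map_sup] at h2
          have h3 : N.map π = ⊥ := by rw [Subgroup.map_eq_bot_iff, hkerπ]
          rwa [h3, sup_bot_eq] at h2
        have hresP : ∀ r ∈ (Nat.card N).primeFactors, res k (S r) ≤ P := by
          intro r hr
          have hrp := Nat.prime_of_mem_primeFactors hr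
          have h1 : IsPGroup 2 ((P : Subgroup G) ⊔ res k (S r) : Subgroup G) := by
            apply isPGroup_sup P.2 (hall r hr)
            intro a ha b hb
            have h0 : cj a (res k (S r)) = res k (S r) := by
              rw [cj_res, cj_self_of_mem (hPS r hrp ha)]
            have := conj_mem_cj (g := a) hb
            rwa [h0] at this
          have h2 := P.3 h1 le_sup_left
          rw [← h2]; exact le_sup_right
        have hlift : ∀ r ∈ (Nat.card N).primeFactors, ∃ d ∈ res k (S r), π d = y := by
          intro r hr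
          have h1 : y ∈ res k ((S r).map π) := by rw [hmapS r hr]; exact hy
          rw [res_map] at h1
          exact mem_map.1 h1
        obtain ⟨d, hd, hdy⟩ := hlift q hqm
        have hdP : d ∈ (P : Subgroup G) := hresP q hqm hd
        have hdall : ∀ r ∈ (Nat.card N).primeFactors, d ∈ res k (S r) := by
          intro r hr
          obtain ⟨d', hd', hdy'⟩ := hlift r hr
          have hdP' : d' ∈ (P : Subgroup G) := hresP r hr hd'
          have h1 : d * d'⁻¹ ∈ N := by
            rw [← hkerπ, MonoidHom.mem_ker, map_mul, map_inv, hdy, hdy', mul_inv_cancel]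
          have h2 : d * d'⁻¹ ∈ (P : Subgroup G) := mul_mem hdP (inv_mem hdP')
          have h3 := eq_one_of_two_odd (isTwo_of_isPGroup P.2 h2) (odd_of_card hN2 h1)
          rw [mul_inv_eq_one] at h3
          rw [h3]; exact hd'
        have hNd : N ≤ centralizer ({d} : Set G) := by
          apply le_of_forall_prime
          intro r hr hrN
          have hrm : r ∈ (Nat.card N).primeFactors :=
            Nat.mem_primeFactors.2 ⟨hr, hrN, Nat.card_pos.ne'⟩
          refine ⟨Q r, hQN r hr, ?_, hQc r hr⟩
          intro x hx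
          rw [mem_centralizer_singleton_iff]
          have h1 : d * x * d⁻¹ * x⁻¹ ∈ Q r :=
            mul_mem (hSQ r hr d (res_le k _ (hdall r hrm)) x hx) (inv_mem hx)
          have h2 : d * x * d⁻¹ * x⁻¹ ∈ res k (S r) := by
            have h0 : cj x (res k (S r)) = res k (S r) := by
              rw [cj_res, cj_self_of_mem (hQS r hr hx)]
            have h3 := conj_mem_cj (g := x) (inv_mem (hdall r hrm))
            rw [h0] at h3
            have h4 := mul_mem (hdall r hrm) h3
            simpa [mul_assoc] using h4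
          have h3 := eq_one_of_two_odd (isTwo_of_isPGroup (hall r hrm) h2)
            (odd_of_card hN2 (hQN r hr h1))
          have h4 : d * x = x * d := by
            have := mul_inv_eq_one.1 h3
            rw [mul_inv_eq_iff_eq_mul] at this
            exact this
          exact h4.symm
        -- `d` centralises `N`
        have hCodd : ¬ 2 ∣ Nat.card (centralizer (N : Set G)) := by
          apply hho G hsep N (centralizer (N : Set G)) inferInstance ?_ hNmax
            (fun M h1 h2 _ => hD' M h1 h2)
          intro c hc v hv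
          exact (mem_centralizer_iff.1 hc v hv).symm
        have hdC : d ∈ centralizer (N : Set G) := by
          rw [mem_centralizer_iff]
          intro x hx
          have := mem_centralizer_singleton_iff.1 (hNd hx)
          exact this
        have hd1 := eq_one_of_two_odd (isTwo_of_isPGroup P.2 hdP) (odd_of_card hCodd hdC)
        rw [← hdy, hd1, map_one]
        exact one_mem _
      rw [step3 k hkey]
      exact IsPGroup.of_bot

theorem red_of (hho : HHOdd) (supp : Supp) : Red := by
  intro G _ _ hsep P
  obtain ⟨H, h1, h2, h3⟩ := red_claim hho supp _ G le_rfl hsep P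
  refine ⟨H, h1, h2, fun k hk => ?_⟩
  have h4 := h3 k (by rw [hk]; exact IsPGroup.of_bot)
  show Ev (Od (res k _)) = ⊥
  rw [Od_eq_bot_iff.2 h4]; exact Ev_bot

/-- **Reduction of 2-separable groups to solvable ones.** -/
theorem red : Red :=
  red_of (fun G _ _ hsep V C hCn hC hV hO => hh_odd G hsep V C hCn hC hV hO)
    (fun G _ _ N P H _ hN hP hNH hPH hsol q hq => exists_supp G N P H hN hP hNH hPH hsol q hq)

end Pool.Agent.Th
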